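import Mathlib
import Pool.Agent.Lib.MP_ccab6c_rate.PartB4
import Pool.Agent.Lib.MP_ccab6c_rate.ExC
import Pool.Agent.Lib.MP_ccab6c_rate.SmallP

set_option autoImplicit false

/-!
The optimal constant `c(p)` of the maximum principle of Korenblum in the Bergman space `A^p`:
for every `p ≥ 1` the gap `1 - c(p)` lies between `1 / (300 √p)` and `241 / √p`, so that it is
of exact order `p ^ (-1/2)`.
-/

open Complex Metric Set Filter Topology MeasureTheory

namespace Pool.Agent.Results.MP_ccab6c_an.ExactOrder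

/-- The number `c(p)`: the supremum of the admissible radii `r` in `[0, 1)`. A radius is
admissible when `|f| ≤ |g|` on `r < |z| < 1` implies `∫ |f| ^ p ≤ ∫ |g| ^ p` over the unit disc,
for all holomorphic `f` and `g` on the unit disc. -/
noncomputable def cConst (p : ℝ) : ℝ :=
  sSup {r : ℝ | 0 ≤ r ∧ r < 1 ∧
    ∀ f g : ℂ → ℂ, DifferentiableOn ℂ f (Metric.ball 0 1) →
      DifferentiableOn ℂ g (Metric.ball 0 1) →
      (∀ z : ℂ, r < ‖z‖ → ‖z‖ < 1 → ‖f z‖ ≤ ‖g z‖) →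
      ∫⁻ z in Metric.ball (0:ℂ) 1, ‖f z‖ₑ ^ p ≤ ∫⁻ z in Metric.ball (0:ℂ) 1, ‖g z‖ₑ ^ p}

theorem bddAbove_adm (p : ℝ) : BddAbove {r : ℝ | 0 ≤ r ∧ r < 1 ∧
    ∀ f g : ℂ → ℂ, DifferentiableOn ℂ f (Metric.ball 0 1) →
      DifferentiableOn ℂ g (Metric.ball 0 1) →
      (∀ z : ℂ, r < ‖z‖ → ‖z‖ < 1 → ‖f z‖ ≤ ‖g z‖) →
      ∫⁻ z in Metric.ball (0:ℂ) 1, ‖f z‖ₑ ^ p ≤ ∫⁻ z in Metric.ball (0:ℂ) 1, ‖g z‖ₑ ^ p} :=
  ⟨1, fun _ hr => hr.2.1.le⟩

/-- The admissible radius `1 - 120 / √(p - 1)`. -/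
theorem mem_adm {p : ℝ} (hp : 57601 ≤ p) :
    120 / √(p - 1) ≤ 1 / 2 ∧ 0 < 120 / √(p - 1) ∧
    ∀ f g : ℂ → ℂ, DifferentiableOn ℂ f (Metric.ball 0 1) →
      DifferentiableOn ℂ g (Metric.ball 0 1) →
      (∀ z : ℂ, 1 - 120 / √(p - 1) < ‖z‖ → ‖z‖ < 1 → ‖f z‖ ≤ ‖g z‖) →
      ∫⁻ z in Metric.ball (0:ℂ) 1, ‖f z‖ₑ ^ p ≤ ∫⁻ z in Metric.ball (0:ℂ) 1, ‖g z‖ₑ ^ p := by
  have hp1 : 57600 ≤ p - 1 := by linarith
  have hs : 240 ≤ √(p - 1) := by
    rw [show (240:ℝ) = √(240 ^ 2) by rw [Real.sqrt_sq (by norm_num)]]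
    apply Real.sqrt_le_sqrt
    norm_num; linarith
  have hs0 : 0 < √(p - 1) := by linarith
  have h1 : 120 / √(p - 1) ≤ 1 / 2 := by
    rw [div_le_div_iff₀ hs0 (by norm_num)]; linarith
  have h0 : 0 < 120 / √(p - 1) := by positivity
  refine ⟨h1, h0, ?_⟩
  intro f g hf hg hfg
  refine Pool.Agent.MPccab6c.admissible_of_large2 (by linarith) h0 h1 ?_ f g hf hg hfg
  have h2 : √(p - 1) ^ 2 = p - 1 := Real.sq_sqrt (by linarith)
  have h3 : (p - 1) * (120 / √(p - 1)) ^ 2 = 14400 := by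
    rw [div_pow, h2]
    have : p - 1 ≠ 0 := by linarith
    field_simp
    norm_num
  rw [h3]

theorem upper {p : ℝ} (hp : 57601 ≤ p) : 1 - cConst p ≤ 121 / √p := by
  obtain ⟨h1, h0, hadm⟩ := mem_adm hp
  have hp0 : 0 < p := by linarith
  have hmem : 1 - 120 / √(p - 1) ≤ cConst p := by
    apply le_csSup (bddAbove_adm p)
    exact ⟨by linarith, by linarith, hadm⟩
  have hle : 120 / √(p - 1) ≤ 121 / √p := by
    have hsp : 0 < √p := Real.sqrt_pos.mpr hp0
    have hsp1 : 0 < √(p - 1) := Real.sqrt_pos.mpr (by linarith)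
    rw [div_le_div_iff₀ hsp1 hsp]
    have h2 : (120 * √p) ^ 2 ≤ (121 * √(p - 1)) ^ 2 := by
      rw [mul_pow, mul_pow, Real.sq_sqrt hp0.le, Real.sq_sqrt (by linarith)]
      linarith
    exact le_of_sq_le_sq h2 (by positivity)
  linarith

theorem zero_le {p : ℝ} (hp : 0 ≤ p) : 0 ≤ cConst p := by
  apply le_csSup (bddAbove_adm p)
  exact ⟨le_rfl, by norm_num, Pool.Agent.MPccab6c.zero_adm p hp⟩

theorem lower {p : ℝ} (hp : 1 ≤ p) : 1 / (300 * √p) ≤ 1 - cConst p := by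
  have hp0 : 0 < p := by linarith
  have hsp : 0 < √p := Real.sqrt_pos.mpr hp0
  have hle : cConst p ≤ 1 - 1 / (300 * √p) := by
    apply csSup_le
    · exact ⟨0, le_rfl, by norm_num, Pool.Agent.MPccab6c.zero_adm p hp0.le⟩
    · intro r hr
      rcases le_total (√p) 1000 with h | h
      · -- small exponents
        have h1 := Pool.Agent.MPccab6c.admissible_simple hp0.le hr.1 hr.2.2
        have h2 := Pool.Agent.MPccab6c.gap_simple hp h h1
        linarith
      · -- large exponents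
        set δ : ℝ := 1 / (300 * √p) with hδ
        have hδ0 : 0 < δ := by positivity
        have hδ1 : δ ≤ 1 / 300000 := by
          rw [hδ]
          apply one_div_le_one_div_of_le (by norm_num)
          linarith
        have hpδ : p * δ ^ 2 ≤ 1 / 50000 := by
          have h1 : p * δ ^ 2 = 1 / 90000 := by
            have h2 : √p ^ 2 = p := Real.sq_sqrt hp0.le
            rw [hδ, div_pow, mul_pow, h2]
            field_simp
            norm_num
          rw [h1]; norm_num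
        exact Pool.Agent.MPccab6c.admissible_le hp0 hδ0 hδ1 hpδ hr.2.2
  linarith

theorem upper_all {p : ℝ} (hp : 1 ≤ p) : 1 - cConst p ≤ 241 / √p := by
  have hp0 : 0 < p := by linarith
  have hsp : 0 < √p := Real.sqrt_pos.mpr hp0
  rcases le_total p 57601 with h | h
  · have h0 : 0 ≤ cConst p := zero_le hp0.le
    have h1 : √p ≤ 241 := by
      have h2 : √p ^ 2 ≤ 241 ^ 2 := by rw [Real.sq_sqrt hp0.le]; norm_num; linarith
      exact le_of_sq_le_sq h2 (by norm_num)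
    have h3 : 1 ≤ 241 / √p := by
      rw [le_div_iff₀ hsp]; linarith
    linarith
  · refine (upper h).trans ?_
    gcongr
    norm_num

/-- For every `p ≥ 1` the constant `c(p)` of the maximum principle of Korenblum in the
Bergman space `A^p` satisfies `1 / (300 √p) ≤ 1 - c(p) ≤ 241 / √p`. -/
theorem result : ∀ p : ℝ, 1 ≤ p →
    1 / (300 * √p) ≤ 1 - cConst p ∧ 1 - cConst p ≤ 241 / √p :=
  fun _ hp => ⟨lower hp, upper_all hp⟩

end Pool.Agent.Results.MP_ccab6c_an.ExactOrder
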